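import Pool.Agent.H527R3.Rpo.Final

set_option autoImplicit false

/-!
# MP_18cdfa_lc, Q1: the existential theory of the recursive path ordering with a partial
precedence is undecidable

Definitions (in `Pool.Agent.H527R3.Rpo.Defs`): `Tm ar` ground terms; `Eqv st` the congruence
generated by permuting the arguments of the symbols with multiset status; `Gt prec st` the
recursive path ordering with status; `Con F V` flat literals `x = h(y₁, …, y_m)`, `x > y`,
`¬ x > y` between variables; `Sat` truth of a literal under an assignment of ground terms.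

The proof: the terms built from `c` with `x ↦ f(c, …, c, x)` and `x ↦ g(c, …, c, x)` are the
words over a two-letter alphabet, the ordering on them is the (strict) subword ordering, and they
are defined among all ground terms by finitely many negated literals.  Addition and multiplication
of natural numbers are then defined by systems of constraints with the subword ordering, and the
theorem of Davis, Putnam, Robinson and Matiyasevich is used.
-/

namespace Pool.Agent.Results.MP_18cdfa_lc.ExistentialUndecidable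

open Pool.Agent.H527R3.Rpo

theorem result :
    (∀ (N : ℕ) (ar : Fin N → ℕ) (prec : Fin N → Fin N → Prop) (st : Fin N → Bool)
      (c f g : Fin N), ar c = 0 → (∀ h, prec c h → ar h ≠ 0) →
      ar f ≠ 0 → ar g ≠ 0 → f ≠ g → (ar f = 1 ∨ st f = true) → (ar g = 1 ∨ st g = true) →
      (∀ h, prec f h → h = c) → (∀ h, prec g h → h = c) →
      ¬ ComputablePred fun L : List (Con (Fin N) ℕ) =>
        ∃ w : ℕ → Tm ar, ∀ d ∈ L, Sat prec st w d) ∧
    ∃ (N : ℕ) (ar : Fin N → ℕ) (prec : Fin N → Fin N → Prop) (st : Fin N → Bool),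
      (∀ x, ¬ prec x x) ∧ (∀ x y z, prec x y → prec y z → prec x z) ∧
      (∃ a b, a ≠ b ∧ ¬ prec a b ∧ ¬ prec b a) ∧ (∃ c, ar c = 0) ∧
      (∃ h, st h = true ∧ 2 ≤ ar h) ∧ (∃ h, st h = false ∧ 2 ≤ ar h) ∧
      ¬ ComputablePred fun L : List (Con (Fin N) ℕ) =>
        ∃ w : ℕ → Tm ar, ∀ d ∈ L, Sat prec st w d := by
  have key : ∀ (N : ℕ) (ar : Fin N → ℕ) (prec : Fin N → Fin N → Prop) (st : Fin N → Bool)
      (c f g : Fin N), ar c = 0 → (∀ h, prec c h → ar h ≠ 0) →
      ar f ≠ 0 → ar g ≠ 0 → f ≠ g → (ar f = 1 ∨ st f = true) → (ar g = 1 ∨ st g = true) →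
      (∀ h, prec f h → h = c) → (∀ h, prec g h → h = c) →
      ¬ ComputablePred fun L : List (Con (Fin N) ℕ) =>
        ∃ w : ℕ → Tm ar, ∀ d ∈ L, Sat prec st w d :=
    fun N ar prec st c f g h1 h2 h3 h4 h5 h6 h7 h8 h9 =>
      undecidable ⟨h1, h2, h3, h4, h5, h6, h7, h8, h9⟩
  refine ⟨key, 5, ![0, 1, 1, 2, 2], fun _ _ => False, ![true, true, true, true, false],
    fun _ h => h, fun _ _ _ h _ => h, ⟨1, 2, by decide, fun h => h, fun h => h⟩, ⟨0, rfl⟩,
    ⟨3, rfl, le_rfl⟩, ⟨4, rfl, le_rfl⟩, ?_⟩
  exact key 5 _ _ _ 0 1 2 rfl (fun _ h => h.elim) (by decide) (by decide) (by decide)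
    (Or.inl rfl) (Or.inl rfl) (fun _ h => h.elim) (fun _ h => h.elim)

end Pool.Agent.Results.MP_18cdfa_lc.ExistentialUndecidable
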